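import Mathlib

/-! Helper lemmas on elementary nets of modules over a field. -/

namespace Pool.Agent.MP_9bf48e_al.H46

open Matrix

section General

variable {R K : Type*} [CommRing R] [Field K] [Algebra R K] {n : ℕ}

/-- The generating set of the elementary net subgroup. -/
def gens (σ : Fin n → Fin n → Submodule R K) : Set (GL (Fin n) K) :=
  {g | ∃ i j : Fin n, i ≠ j ∧ ∃ a ∈ σ i j,
    (g : Matrix (Fin n) (Fin n) K) = Matrix.transvection i j a}

/-- Elementary net condition. -/
def IsNet (σ : Fin n → Fin n → Submodule R K) : Prop :=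
  ∀ i r j : Fin n, i ≠ r → r ≠ j → i ≠ j → ∀ a ∈ σ i r, ∀ b ∈ σ r j, a * b ∈ σ i j

/-- Closedness. -/
def IsClosedNet (σ : Fin n → Fin n → Submodule R K) : Prop :=
  ∀ i j : Fin n, i ≠ j → ∀ a : K, ∀ g ∈ Subgroup.closure (gens σ),
    (g : Matrix (Fin n) (Fin n) K) = Matrix.transvection i j a → a ∈ σ i j

/-- The diagonal condition for the completed net. -/
def Diag (σ : Fin n → Fin n → Submodule R K) (i : Fin n) (z : K) : Prop :=
  ∀ j : Fin n, j ≠ i → (∀ a ∈ σ i j, z * a ∈ σ i j) ∧ (∀ a ∈ σ j i, z * a ∈ σ j i)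

def InNet (σ : Fin n → Fin n → Submodule R K) (x : Matrix (Fin n) (Fin n) K) : Prop :=
  (∀ i j : Fin n, i ≠ j → x i j ∈ σ i j) ∧ ∀ i, Diag σ i (x i i)

theorem diag_one (σ : Fin n → Fin n → Submodule R K) (i : Fin n) : Diag σ i 1 := by
  intro j _
  exact ⟨fun a ha => by simpa using ha, fun a ha => by simpa using ha⟩

theorem diag_zero (σ : Fin n → Fin n → Submodule R K) (i : Fin n) : Diag σ i 0 := by
  intro j _
  exact ⟨fun a _ => by simp, fun a _ => by simp⟩

theorem diag_add {σ : Fin n → Fin n → Submodule R K} {i : Fin n} {z w : K}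
    (hz : Diag σ i z) (hw : Diag σ i w) : Diag σ i (z + w) := by
  intro j hj
  exact ⟨fun a ha => by
      rw [add_mul]; exact add_mem ((hz j hj).1 a ha) ((hw j hj).1 a ha),
    fun a ha => by rw [add_mul]; exact add_mem ((hz j hj).2 a ha) ((hw j hj).2 a ha)⟩

theorem diag_mul {σ : Fin n → Fin n → Submodule R K} {i : Fin n} {z w : K}
    (hz : Diag σ i z) (hw : Diag σ i w) : Diag σ i (z * w) := by
  intro j hj
  exact ⟨fun a ha => by
      rw [mul_assoc]; exact (hz j hj).1 _ ((hw j hj).1 a ha),
    fun a ha => by rw [mul_assoc]; exact (hz j hj).2 _ ((hw j hj).2 a ha)⟩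

theorem diag_sum {σ : Fin n → Fin n → Submodule R K} {i : Fin n} (s : Finset (Fin n))
    (f : Fin n → K) (h : ∀ r ∈ s, Diag σ i (f r)) : Diag σ i (∑ r ∈ s, f r) :=
  Finset.sum_induction f (Diag σ i) (fun _ _ => diag_add) (diag_zero σ i) h

theorem inNet_transvection {σ : Fin n → Fin n → Submodule R K} {i j : Fin n} (hij : i ≠ j)
    {a : K} (ha : a ∈ σ i j) : InNet σ (Matrix.transvection i j a) := by
  constructor
  · intro p q hpq
    by_cases h : i = p ∧ j = q
    · obtain ⟨rfl, rfl⟩ := h
      simpa [Matrix.transvection, hij] using ha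
    · simp [Matrix.transvection, hpq, h]
  · intro p
    have h : ¬ (i = p ∧ j = p) := fun h => hij (h.1.trans h.2.symm)
    simpa [Matrix.transvection, Matrix.single_apply, h] using diag_one σ p

theorem inNet_one (σ : Fin n → Fin n → Submodule R K) : InNet σ 1 := by
  constructor
  · intro p q hpq
    simp [hpq]
  · intro p
    simpa using diag_one σ p

theorem inNet_mul {σ : Fin n → Fin n → Submodule R K} (hσ : IsNet σ)
    (hc : ∀ i j : Fin n, i ≠ j → ∀ a ∈ σ i j, ∀ b ∈ σ j i, ∀ c ∈ σ i j, a * b * c ∈ σ i j)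
    {x y : Matrix (Fin n) (Fin n) K} (hx : InNet σ x) (hy : InNet σ y) : InNet σ (x * y) := by
  constructor
  · intro i j hij
    rw [Matrix.mul_apply]
    refine Submodule.sum_mem _ fun r _ => ?_
    by_cases hri : r = i
    · subst hri
      exact ((hx.2 r) j hij.symm).1 _ (hy.1 r j hij)
    · by_cases hrj : r = j
      · subst hrj
        rw [mul_comm]
        exact ((hy.2 r) i hij).2 _ (hx.1 i r hij)
      · exact hσ i r j (Ne.symm hri) hrj hij _ (hx.1 i r (Ne.symm hri)) _ (hy.1 r j hrj)
  · intro i
    rw [Matrix.mul_apply]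
    refine diag_sum _ _ fun r _ => ?_
    by_cases hri : r = i
    · subst hri
      exact diag_mul (hx.2 r) (hy.2 r)
    · have ha := hx.1 i r (Ne.symm hri)
      have hb := hy.1 r i hri
      intro j hj
      by_cases hjr : j = r
      · subst hjr
        refine ⟨fun c hcm => hc i j (Ne.symm hj) _ ha _ hb _ hcm, fun c hcm => ?_⟩
        have := hc j i hj _ hb _ ha _ hcm
        rwa [mul_comm (y j i)] at this
      · refine ⟨fun c hcm => ?_, fun c hcm => ?_⟩
        · rw [mul_assoc]
          exact hσ i r j (Ne.symm hri) (Ne.symm hjr) (Ne.symm hj) _ ha _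
            (hσ r i j hri (Ne.symm hj) (Ne.symm hjr) _ hb _ hcm)
        · have := hσ j r i hjr hri hj _ (hσ j i r hj (Ne.symm hri) hjr _ hcm _ ha) _ hb
          have e : x i r * y r i * c = c * x i r * y r i := by ring
          rwa [e]

/-- A completable elementary net is closed. -/
theorem closed_of_completable {σ : Fin n → Fin n → Submodule R K} (hσ : IsNet σ)
    (hc : ∀ i j : Fin n, i ≠ j → ∀ a ∈ σ i j, ∀ b ∈ σ j i, ∀ c ∈ σ i j, a * b * c ∈ σ i j) :
    IsClosedNet σ := by
  have key : ∀ g ∈ Subgroup.closure (gens σ),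
      InNet σ (g : Matrix (Fin n) (Fin n) K) ∧
        InNet σ ((g⁻¹ : GL (Fin n) K) : Matrix (Fin n) (Fin n) K) := by
    intro g hg
    induction hg using Subgroup.closure_induction with
    | mem g hg =>
      obtain ⟨i, j, hij, a, ha, hga⟩ := hg
      refine ⟨hga ▸ inNet_transvection hij ha, ?_⟩
      have : ((g⁻¹ : GL (Fin n) K) : Matrix (Fin n) (Fin n) K)
          = Matrix.transvection i j (-a) := by
        apply Units.inv_eq_of_mul_eq_one_right
        rw [hga, Matrix.transvection_mul_transvection_same _ _ hij]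
        simp
      rw [this]
      exact inNet_transvection hij (neg_mem ha)
    | one => exact ⟨by simpa using inNet_one σ, by simpa using inNet_one σ⟩
    | mul x y _ _ hx hy =>
      refine ⟨?_, ?_⟩
      · rw [Units.val_mul]; exact inNet_mul hσ hc hx.1 hy.1
      · rw [_root_.mul_inv_rev, Units.val_mul]; exact inNet_mul hσ hc hy.2 hx.2
    | inv x _ hx => exact ⟨hx.2, by simpa using hx.1⟩
  intro i j hij a g hg hga
  have := (key g hg).1.1 i j hij
  rw [hga] at this
  simpa [Matrix.transvection, hij] using this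

/-- The transvection as an invertible matrix. -/
def tv {i j : Fin n} (hij : i ≠ j) (a : K) : GL (Fin n) K where
  val := Matrix.transvection i j a
  inv := Matrix.transvection i j (-a)
  val_inv := by rw [Matrix.transvection_mul_transvection_same _ _ hij]; simp
  inv_val := by rw [Matrix.transvection_mul_transvection_same _ _ hij]; simp

theorem weyl_identity {i j : Fin n} (hij : i ≠ j) (θ : K) :
    (Matrix.transvection i j (1 : K) * Matrix.transvection j i (-1) * Matrix.transvection i j 1)
        * Matrix.transvection j i (-θ)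
      = Matrix.transvection i j θ *
        (Matrix.transvection i j (1 : K) * Matrix.transvection j i (-1)
          * Matrix.transvection i j 1) := by
  have h1 : ∀ c d : K, Matrix.single i j c * Matrix.single i j d = 0 := fun c d =>
    Matrix.single_mul_single_of_ne (h := hij.symm) ..
  have h2 : ∀ c d : K, Matrix.single j i c * Matrix.single j i d = 0 := fun c d =>
    Matrix.single_mul_single_of_ne (h := hij) ..
  have h3 : ∀ c d : K, Matrix.single i i c * Matrix.single j i d = 0 := fun c d =>
    Matrix.single_mul_single_of_ne (h := hij) ..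
  have h5 : ∀ c d : K, Matrix.single i j c * Matrix.single i i d = 0 := fun c d =>
    Matrix.single_mul_single_of_ne (h := hij.symm) ..
  simp only [Matrix.transvection, mul_add, add_mul, one_mul, mul_one, h1, h2, h3, h5,
    Matrix.single_mul_single_same, add_zero]
  ext p q
  simp only [Matrix.add_apply, Matrix.single_apply]
  split_ifs <;> ring

/-- If both opposite modules contain one and differ, the net is not closed. -/
theorem not_closed {σ : Fin n → Fin n → Submodule R K} {i j : Fin n} (hij : i ≠ j)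
    (h1 : (1 : K) ∈ σ i j) (h2 : (1 : K) ∈ σ j i) {θ : K} (h3 : θ ∈ σ j i) (h4 : θ ∉ σ i j) :
    ¬ IsClosedNet σ := by
  intro hcl
  have m1 : tv hij (1 : K) ∈ Subgroup.closure (gens σ) :=
    Subgroup.subset_closure ⟨i, j, hij, 1, h1, rfl⟩
  have m2 : tv hij.symm (-1 : K) ∈ Subgroup.closure (gens σ) :=
    Subgroup.subset_closure ⟨j, i, hij.symm, -1, neg_mem h2, rfl⟩
  have m3 : tv hij.symm (-θ) ∈ Subgroup.closure (gens σ) :=
    Subgroup.subset_closure ⟨j, i, hij.symm, -θ, neg_mem h3, rfl⟩
  set w : GL (Fin n) K := tv hij (1 : K) * tv hij.symm (-1 : K) * tv hij (1 : K) with hw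
  have mw : w ∈ Subgroup.closure (gens σ) := mul_mem (mul_mem m1 m2) m1
  have e : w * tv hij.symm (-θ) = tv hij θ * w := by
    apply Units.ext
    simp only [hw, Units.val_mul]
    exact weyl_identity hij θ
  have e' : tv hij θ = w * tv hij.symm (-θ) * w⁻¹ := by rw [e]; group
  have m4 : tv hij θ ∈ Subgroup.closure (gens σ) := by
    rw [e']; exact mul_mem (mul_mem mw m3) (inv_mem mw)
  exact h4 (hcl i j hij θ _ m4 rfl)

/-- The multiplier ring of a submodule. -/
def stab (M : Submodule R K) : Subalgebra R K where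
  carrier := {z | ∀ c ∈ M, z * c ∈ M}
  mul_mem' := fun {a b} ha hb c hc => by rw [mul_assoc]; exact ha _ (hb c hc)
  add_mem' := fun {a b} ha hb c hc => by rw [add_mul]; exact add_mem (ha c hc) (hb c hc)
  algebraMap_mem' := fun r c hc => by rw [← Algebra.smul_def]; exact M.smul_mem r hc

/-- For order at least three, completability follows from a property of overrings. -/
theorem completable_of {σ : Fin n → Fin n → Submodule R K} (hn : 3 ≤ n) (hσ : IsNet σ)
    (hirr : ∀ i j : Fin n, i ≠ j → σ i j ≠ ⊥)
    (hP : ∀ (P : Subalgebra R K) (t u : K), u ≠ 0 → (∀ m : ℕ, t ^ m * u ∈ P) → t ∈ P) :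
    ∀ i j : Fin n, i ≠ j → ∀ a ∈ σ i j, ∀ b ∈ σ j i, ∀ c ∈ σ i j, a * b * c ∈ σ i j := by
  intro i j hij a ha b hb
  obtain ⟨l, hli, hlj⟩ : ∃ l : Fin n, l ≠ i ∧ l ≠ j := by
    by_contra hcon
    push Not at hcon
    have hsub : (Finset.univ : Finset (Fin n)) ⊆ {i, j} := by
      intro l _
      by_cases h : l = i
      · simp [h]
      · simp [hcon l h]
    have h1 := Finset.card_le_card hsub
    have h2 : ({i, j} : Finset (Fin n)).card ≤ 2 := Finset.card_le_two
    simp at h1
    omega
  obtain ⟨x, hx, hx0⟩ := Submodule.exists_mem_ne_zero_of_ne_bot (hirr j l hlj.symm)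
  obtain ⟨y, hy, hy0⟩ := Submodule.exists_mem_ne_zero_of_ne_bot (hirr l j hlj)
  have h1 : ∀ m : ℕ, (a * b) ^ m * x ∈ σ j l := by
    intro m
    induction m with
    | zero => simpa using hx
    | succ m ih =>
      have := hσ j i l hij.symm hli.symm hlj.symm _ hb _
        (hσ i j l hij hlj.symm hli.symm _ ha _ ih)
      have e : (a * b) ^ (m + 1) * x = b * (a * ((a * b) ^ m * x)) := by ring
      rwa [e]
  have h2 : ∀ m : ℕ, (a * b) ^ m * (x * y) ∈ stab (σ i j) := by
    intro m c hc
    have := hσ i l j hli.symm hlj hij _ (hσ i j l hij hlj.symm hli.symm _ hc _ (h1 m)) _ hy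
    have e : (a * b) ^ m * (x * y) * c = c * ((a * b) ^ m * x) * y := by ring
    rwa [e]
  exact hP _ _ _ (mul_ne_zero hx0 hy0) h2

/-- The counterexample built from an overring and an element of the ground ring. -/
theorem exists_not_closed (hn : 2 ≤ n) (A B I : Submodule R K)
    (hA : (1 : K) ∈ A) (hB : (1 : K) ∈ B) (hI : I ≠ ⊥) {θ : K} (h3 : θ ∈ B) (h4 : θ ∉ A)
    (hnet : n = 2 ∨ (A ≤ B ∧ I ≤ A ∧ ∀ b ∈ B, ∀ c ∈ I, b * c ∈ I)) :
    ∃ σ : Fin n → Fin n → Submodule R K, IsNet σ ∧ (∀ i j : Fin n, i ≠ j → σ i j ≠ ⊥) ∧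
      ¬ IsClosedNet σ := by
  classical
  let i0 : Fin n := ⟨0, by omega⟩
  let i1 : Fin n := ⟨1, by omega⟩
  have h01 : i0 ≠ i1 := by simp [i0, i1]
  let σ : Fin n → Fin n → Submodule R K := fun i j =>
    if i = i0 ∧ j = i1 then A else if i = i1 ∧ j = i0 then B else I
  have s01 : σ i0 i1 = A := by simp [σ]
  have s10 : σ i1 i0 = B := by simp [σ, h01, h01.symm]
  refine ⟨σ, ?_, ?_, ?_⟩
  · rcases hnet with rfl | ⟨hAB, hIA, hBI⟩
    · intro i r j hir hrj hij
      exfalso
      omega
    · have hle : ∀ i j, σ i j ≤ B := by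
        intro i j
        simp only [σ]
        split_ifs
        · exact hAB
        · exact le_rfl
        · exact hIA.trans hAB
      have hge : ∀ i j, I ≤ σ i j := by
        intro i j
        simp only [σ]
        split_ifs
        · exact hIA
        · exact hIA.trans hAB
        · exact le_rfl
      intro i r j hir hrj hij a ha b hb
      apply hge
      by_cases h : σ r j = I
      · exact hBI a (hle _ _ ha) b (h ▸ hb)
      · have h' : σ i r = I := by
          simp only [σ] at h ⊢
          by_cases c1 : r = i0 ∧ j = i1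
          · obtain ⟨rfl, rfl⟩ := c1
            simp [h01, hij]
          · by_cases c2 : r = i1 ∧ j = i0
            · obtain ⟨rfl, rfl⟩ := c2
              simp [h01.symm, hij]
            · simp [c1, c2] at h
        rw [mul_comm]
        exact hBI b (hle _ _ hb) a (h' ▸ ha)
  · intro i j _
    simp only [σ]
    split_ifs
    · intro h; rw [h] at hA; simp at hA
    · intro h; rw [h] at hB; simp at hB
    · exact hI
  · exact not_closed h01 (s01 ▸ hA) (s10 ▸ hB) (s10 ▸ h3) (s01 ▸ h4)

end General

section Arith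

variable {R k K : Type*} [CommRing R] [IsDomain R] [Field k] [Algebra R k] [IsFractionRing R k]
  [Field K] [Algebra k K] [Algebra R K] [IsScalarTower R k K]

include k in
theorem inj_RK : Function.Injective (algebraMap R K) := by
  rw [IsScalarTower.algebraMap_eq R k K, RingHom.coe_comp]
  exact (algebraMap k K).injective.comp (IsFractionRing.injective R k)

include k in
theorem overring_of_field [Algebra.IsAlgebraic k K] (hR : IsField R)
    (P : Subalgebra R K) (t u : K) (hu : u ≠ 0) (h : ∀ m : ℕ, t ^ m * u ∈ P) : t ∈ P := by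
  have halg : IsAlgebraic R u :=
    (IsFractionRing.isAlgebraic_iff R k K).mpr (Algebra.IsAlgebraic.isAlgebraic u)
  have huP : u ∈ P := by simpa using h 0
  have htu : t * u ∈ P := by simpa using h 1
  have halg' : IsAlgebraic R (⟨u, huP⟩ : P) :=
    (Subalgebra.isAlgebraic_iff_isAlgebraic_val).mpr halg
  have hu' : (⟨u, huP⟩ : P) ≠ 0 := fun h => hu (congrArg Subtype.val h)
  obtain ⟨r, hr, v, hv⟩ := halg'.exists_nonzero_dvd (mem_nonZeroDivisors_of_ne_zero hu')
  obtain ⟨s, hs⟩ := hR.mul_inv_cancel hr
  have hv' : algebraMap R K r = u * (v : K) := by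
    simpa using congrArg Subtype.val hv
  have : t = (t * u) * (v : K) * algebraMap R K s := by
    rw [mul_assoc t, ← hv', mul_assoc, ← map_mul, hs]; simp
  rw [this]
  exact mul_mem (mul_mem htu v.2) (P.algebraMap_mem s)

theorem overring_of_pid [IsPrincipalIdealRing R] (hk : Function.Surjective (algebraMap k K))
    (P : Subalgebra R K) (t u : K) (hu : u ≠ 0) (h : ∀ m : ℕ, t ^ m * u ∈ P) : t ∈ P := by
  have inj : Function.Injective (algebraMap R K) := inj_RK (k := k)
  obtain ⟨t, rfl⟩ := hk t
  obtain ⟨u, rfl⟩ := hk u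
  obtain ⟨α, β, hrel, ht⟩ := IsFractionRing.exists_reduced_fraction R t
  obtain ⟨r, s, hs, hu'⟩ := IsFractionRing.div_surjective (A := R) u
  have hcop : IsCoprime α (β : R) := hrel.isCoprime
  have hβ : algebraMap R K β ≠ 0 := fun h0 =>
    nonZeroDivisors.ne_zero β.2 (inj (by simpa using h0))
  have hs0 : algebraMap R K s ≠ 0 := fun h0 =>
    nonZeroDivisors.ne_zero hs (inj (by simpa using h0))
  have ht' : algebraMap k K t = algebraMap R K α / algebraMap R K β := by
    rw [← ht, IsFractionRing.mk'_eq_div, map_div₀, ← IsScalarTower.algebraMap_apply,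
      ← IsScalarTower.algebraMap_apply]
  have hu'' : algebraMap k K u = algebraMap R K r / algebraMap R K s := by
    rw [← hu', map_div₀, ← IsScalarTower.algebraMap_apply, ← IsScalarTower.algebraMap_apply]
  have hr0 : r ≠ 0 := by
    rintro rfl
    apply hu
    rw [hu'']; simp
  rw [ht', hu''] at h
  rw [ht']
  let J : Ideal R :=
    { carrier := {z | ∀ m : ℕ, algebraMap R K z / (algebraMap R K β) ^ m ∈ P}
      add_mem' := fun {a b} ha hb m => by
        rw [map_add, add_div]; exact add_mem (ha m) (hb m)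
      zero_mem' := fun m => by simp
      smul_mem' := fun c z hz m => by
        rw [smul_eq_mul, map_mul, mul_div_assoc]
        exact mul_mem (P.algebraMap_mem c) (hz m) }
  have hrJ : r ∈ J := by
    intro m
    obtain ⟨x, y, hxy⟩ := (hcop.pow (m := m) (n := m))
    have hxy' := congrArg (algebraMap R K) hxy
    simp only [map_add, map_mul, map_pow, map_one] at hxy'
    have e : algebraMap R K r / (algebraMap R K β) ^ m
        = algebraMap R K (x * s) * ((algebraMap R K α / algebraMap R K β) ^ m
            * (algebraMap R K r / algebraMap R K s)) + algebraMap R K (y * r) := by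
      simp only [map_mul, div_pow]
      field_simp
      linear_combination (-(algebraMap R K r)) * hxy'
    rw [e]
    exact add_mem (mul_mem (P.algebraMap_mem _) (h m)) (P.algebraMap_mem _)
  obtain ⟨d, hd⟩ := (IsPrincipalIdealRing.principal J).principal
  have hdJ : d ∈ J := by rw [hd]; exact Submodule.mem_span_singleton_self d
  have hd0 : d ≠ 0 := by
    rintro rfl
    rw [hd] at hrJ
    simp at hrJ
    exact hr0 hrJ
  obtain ⟨g, hg⟩ := (IsPrincipalIdealRing.principal (Ideal.span {d, (β : R)})).principal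
  have h1 : d ∈ Ideal.span {g} := by
    rw [← Ideal.submodule_span_eq, ← hg]; exact Ideal.subset_span (by simp)
  have h2 : (β : R) ∈ Ideal.span {g} := by
    rw [← Ideal.submodule_span_eq, ← hg]; exact Ideal.subset_span (by simp)
  have h3 : g ∈ Ideal.span {d, (β : R)} := by
    rw [hg]; exact Submodule.mem_span_singleton_self g
  obtain ⟨d', hd'⟩ := Ideal.mem_span_singleton'.mp h1
  obtain ⟨β', hβ'⟩ := Ideal.mem_span_singleton'.mp h2
  obtain ⟨x, y, hxy⟩ := Ideal.mem_span_pair.mp h3
  have hd'J : d' ∈ J := by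
    intro m
    have hb : algebraMap R K β = algebraMap R K β' * algebraMap R K g := by
      rw [← map_mul, hβ']
    have hdd : algebraMap R K d = algebraMap R K d' * algebraMap R K g := by
      rw [← map_mul, hd']
    have e : algebraMap R K d' / (algebraMap R K β) ^ m
        = algebraMap R K β' * (algebraMap R K d / (algebraMap R K β) ^ (m + 1)) := by
      rw [pow_succ]
      field_simp
      rw [hb, hdd]; ring
    rw [e]
    exact mul_mem (P.algebraMap_mem _) (hdJ (m + 1))
  rw [hd] at hd'J
  obtain ⟨e, he⟩ := Submodule.mem_span_singleton.mp hd'J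
  have hge : e * g = 1 := by
    apply mul_left_cancel₀ hd0
    rw [smul_eq_mul] at he
    linear_combination g * he + hd'
  have hone : e * x * d + e * y * β = 1 := by linear_combination e * hxy + hge
  have hone' := congrArg (algebraMap R K) hone
  simp only [map_add, map_mul, map_one] at hone'
  have e2 : algebraMap R K α / algebraMap R K β
      = algebraMap R K (α * e * x) * (algebraMap R K d / (algebraMap R K β) ^ 1)
        + algebraMap R K (α * e * y) := by
    simp only [map_mul, pow_one]
    field_simp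
    linear_combination (-(algebraMap R K α)) * hone'
  rw [e2]
  exact add_mem (mul_mem (P.algebraMap_mem _) (hdJ 1)) (P.algebraMap_mem _)

/-- The order and its submodules giving the counterexample. -/
theorem exists_order [Algebra.IsAlgebraic k K] (hR : ¬ IsField R)
    (hk : ¬ Function.Surjective (algebraMap k K)) :
    ∃ A B I : Submodule R K, ∃ θ : K, (1 : K) ∈ A ∧ (1 : K) ∈ B ∧ I ≠ ⊥ ∧ θ ∈ B ∧ θ ∉ A ∧
      A ≤ B ∧ I ≤ A ∧ ∀ b ∈ B, ∀ c ∈ I, b * c ∈ I := by
  have inj : Function.Injective (algebraMap R K) := inj_RK (k := k)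
  obtain ⟨p, hp0, hpu⟩ := Ring.exists_not_isUnit_of_not_isField hR
  obtain ⟨θ₀, hθ₀⟩ : ∃ θ₀ : K, ∀ z, algebraMap k K z ≠ θ₀ := by
    by_contra hcon
    push Not at hcon
    exact hk hcon
  have halg : IsAlgebraic R θ₀ :=
    (IsFractionRing.isAlgebraic_iff R k K).mpr (Algebra.IsAlgebraic.isAlgebraic θ₀)
  obtain ⟨y, hy0, hint⟩ := halg.exists_integral_multiple
  let O : Subalgebra R K := Algebra.adjoin R {y • θ₀}
  have hfg : (Subalgebra.toSubmodule O).FG := hint.fg_adjoin_singleton
  let B : Submodule R K := Subalgebra.toSubmodule O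
  let I : Submodule R K := Ideal.span {p} • B
  have memI : ∀ c, c ∈ I ↔ ∃ o ∈ O, p • o = c := by
    intro c
    simp only [I]
    rw [Submodule.ideal_span_singleton_smul, Submodule.mem_smul_pointwise_iff_exists]
    rfl
  have hIB : I ≤ B := Submodule.smul_le_right
  have h1B : (1 : Submodule R K) ≤ B := by
    intro z hz
    obtain ⟨r, rfl⟩ := Submodule.mem_one.mp hz
    exact O.algebraMap_mem r
  have hnot : ¬ B ≤ 1 ⊔ I := by
    intro hle
    obtain ⟨r, hr, hrle⟩ :=
      Submodule.exists_sub_one_mem_and_smul_le_of_fg_of_le_sup (I := Ideal.span {p})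
        (N := (1 : Submodule R K)) (N' := B) (P := B) hfg le_rfl hle
    have hr0 : r ≠ 0 := by
      rintro rfl
      obtain ⟨c, hc⟩ := Ideal.mem_span_singleton'.mp hr
      apply hpu
      exact IsUnit.of_mul_eq_one (-c) (by linear_combination -hc)
    have hmem : r • (y • θ₀) ∈ (1 : Submodule R K) :=
      hrle (Submodule.smul_mem_pointwise_smul _ _ _ (Algebra.self_mem_adjoin_singleton R _))
    obtain ⟨z, hz⟩ := Submodule.mem_one.mp hmem
    apply hθ₀ (algebraMap R k z / algebraMap R k (r * y))
    have hry : algebraMap R K (r * y) ≠ 0 := fun h0 =>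
      mul_ne_zero hr0 hy0 (inj (by simpa using h0))
    rw [map_div₀, ← IsScalarTower.algebraMap_apply, ← IsScalarTower.algebraMap_apply, hz,
      div_eq_iff hry, smul_smul, Algebra.smul_def, mul_comm]
  obtain ⟨θ, hθB, hθA⟩ := SetLike.not_le_iff_exists.mp hnot
  refine ⟨1 ⊔ I, B, I, θ, Submodule.mem_sup_left (Submodule.mem_one.mpr ⟨1, by simp⟩),
    O.one_mem, ?_, hθB, hθA, sup_le h1B hIB, le_sup_right, ?_⟩
  · intro h0
    have : p • (1 : K) ∈ I := (memI _).mpr ⟨1, O.one_mem, rfl⟩
    rw [h0, Submodule.mem_bot, ← Algebra.algebraMap_eq_smul_one] at this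
    exact hp0 (inj (by simpa using this))
  · intro b hb c hc
    obtain ⟨o, ho, rfl⟩ := (memI c).mp hc
    exact (memI _).mpr ⟨b * o, O.mul_mem hb ho, by rw [mul_smul_comm]⟩

end Arith

end Pool.Agent.MP_9bf48e_al.H46
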